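import Pool.Agent.N204.RD.Defs

/-!
# Task HN: homological and numerical equivalence, abstract form
-/

set_option autoImplicit false
set_option linter.unusedSectionVars false

namespace Pool.Agent.N647.RD

open Module
open Pool.Agent.N211.TP (Ops act Fixes IsGalois TateConjecture IsSemisimpleOn)
open Pool.Agent.N204.RD

variable {E : Type} [Field E] {H : ℕ → Type} [∀ n, AddCommGroup (H n)] [∀ n, Module E (H n)]
  {Γ : Type} [Group Γ]

/-- the elements which fix a class after the Tate twist -/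
def fixS (χ : Γ →* Eˣ) (ρ : ∀ n, Representation E Γ (H n)) (j : ℕ) {n : ℕ} (x : H n) :
    Subgroup Γ where
  carrier := {g | Fixes χ ρ j x g}
  mul_mem' := by
    intro a b ha hb
    have ha' : ρ n a x = (χ a : E) ^ j • x := ha
    have hb' : ρ n b x = (χ b : E) ^ j • x := hb
    change ρ n (a * b) x = (χ (a * b) : E) ^ j • x
    rw [map_mul, map_mul, Module.End.mul_apply, hb', map_smul, ha', smul_smul, Units.val_mul,
      mul_pow, mul_comm]
  one_mem' := by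
    change ρ n 1 x = (χ 1 : E) ^ j • x
    rw [map_one, map_one]
    simp
  inv_mem' := by
    intro a ha
    have ha' : ρ n a x = (χ a : E) ^ j • x := ha
    change ρ n a⁻¹ x = (χ a⁻¹ : E) ^ j • x
    have h1 : ρ n a⁻¹ (ρ n a x) = x := by
      rw [← Module.End.mul_apply, ← map_mul, inv_mul_cancel, map_one, Module.End.one_apply]
    rw [ha', map_smul] at h1
    have h0 : (χ a : E) ^ j ≠ 0 := pow_ne_zero _ (χ a).ne_zero
    have h2 : ρ n a⁻¹ x = ((χ a : E) ^ j)⁻¹ • x := by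
      rw [eq_inv_smul_iff₀ h0]
      exact h1
    rw [h2, map_inv, Units.val_inv_eq_inv_val, inv_pow]

lemma mem_fixS {χ : Γ →* Eˣ} {ρ : ∀ n, Representation E Γ (H n)} {j n : ℕ} {x : H n} {g : Γ} :
    g ∈ fixS χ ρ j x ↔ Fixes χ ρ j x g := Iff.rfl

lemma fixes_zpowers {χ : Γ →* Eˣ} {ρ : ∀ n, Representation E Γ (H n)} {j n : ℕ} {x : H n} {g : Γ}
    (h : Fixes χ ρ j x g) : ∀ a ∈ Subgroup.zpowers g, Fixes χ ρ j x a := by
  intro a ha
  exact (Subgroup.zpowers_le.2 (mem_fixS.2 h)) ha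

lemma exists_fix {O : Ops E H} {χ : Γ →* Eˣ} {ρ : ∀ n, Representation E Γ (H n)} {φ : Γ}
    {C : ∀ n : ℕ, ℕ → Set (H n)} (hR : IsReduction O χ ρ φ C) {n j : ℕ} {x : H n}
    (hx : x ∈ Submodule.span E (C n j)) : ∃ m : ℕ, 0 < m ∧ Fixes χ ρ j x (φ ^ m) := by
  refine Submodule.span_induction (p := fun x _ => ∃ m : ℕ, 0 < m ∧ Fixes χ ρ j x (φ ^ m))
    ?_ ?_ ?_ ?_ hx
  · intro y hy
    exact hR.fix n j y hy
  · refine ⟨1, one_pos, ?_⟩
    change ρ n (φ ^ 1) 0 = _ • 0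
    rw [map_zero, smul_zero]
  · rintro y z _ _ ⟨m, hm, hy⟩ ⟨m', hm', hz⟩
    refine ⟨m * m', Nat.mul_pos hm hm', ?_⟩
    have h1 : Fixes χ ρ j y (φ ^ (m * m')) := by
      rw [pow_mul]
      exact fixes_zpowers hy _ (Subgroup.npow_mem_zpowers _ _)
    have h2 : Fixes χ ρ j z (φ ^ (m * m')) := by
      rw [mul_comm, pow_mul]
      exact fixes_zpowers hz _ (Subgroup.npow_mem_zpowers _ _)
    have h1' : ρ n (φ ^ (m * m')) y = (χ (φ ^ (m * m')) : E) ^ j • y := h1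
    have h2' : ρ n (φ ^ (m * m')) z = (χ (φ ^ (m * m')) : E) ^ j • z := h2
    change ρ n (φ ^ (m * m')) (y + z) = (χ (φ ^ (m * m')) : E) ^ j • (y + z)
    rw [map_add, h1', h2', smul_add]
  · rintro c y _ ⟨m, hm, hy⟩
    refine ⟨m, hm, ?_⟩
    have hy' : ρ n (φ ^ m) y = (χ (φ ^ m) : E) ^ j • y := hy
    change ρ n (φ ^ m) (c • y) = (χ (φ ^ m) : E) ^ j • (c • y)
    rw [map_smul, hy', smul_comm]

/-- The splitting into the fixed part and the coboundaries. -/
lemma split (χ : Γ →* Eˣ) (ρ : ∀ n, Representation E Γ (H n)) (n i : ℕ) [FiniteDimensional E (H n)]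
    (G : Submodule E (H n)) (g : Γ) (hss : IsSemisimpleOn (ρ n) (Subgroup.zpowers g) G)
    (z : H n) (hz : z ∈ G) :
    ∃ u z' : H n, u ∈ G ∧ Fixes χ ρ i u g ∧
      z = u + (((χ g : E) ^ i)⁻¹ • ρ n g z' - z') := by
  have h0 : (χ g : E) ^ i ≠ 0 := pow_ne_zero _ (χ g).ne_zero
  set U : Submodule E (H n) := G ⊓ LinearMap.ker (ρ n g - ((χ g : E) ^ i) • LinearMap.id) with hU
  have hUm : ∀ y, y ∈ U ↔ y ∈ G ∧ Fixes χ ρ i y g := by
    intro y
    rw [hU, Submodule.mem_inf, LinearMap.mem_ker, LinearMap.sub_apply, sub_eq_zero]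
    rfl
  obtain ⟨U', hle, hst, hinf, hsup⟩ := hss U inf_le_left (by
    intro a ha y hy
    have h1 := ((hUm y).1 hy).2
    have h2 : ρ n a y = (χ a : E) ^ i • y := fixes_zpowers h1 a ha
    rw [h2]
    exact Submodule.smul_mem _ _ hy)
  set τ : H n →ₗ[E] H n := ((χ g : E) ^ i)⁻¹ • ρ n g - LinearMap.id with hτ
  have hτm : ∀ y ∈ U', τ y ∈ U' := by
    intro y hy
    exact Submodule.sub_mem _ (Submodule.smul_mem _ _ (hst g (Subgroup.mem_zpowers g) y hy)) hy
  have hinj : Function.Injective (τ.restrict hτm) := by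
    rw [← LinearMap.ker_eq_bot, LinearMap.ker_eq_bot']
    rintro ⟨y, hy⟩ h
    have h1 : ((χ g : E) ^ i)⁻¹ • ρ n g y - y = 0 := congrArg Subtype.val h
    have h2 : Fixes χ ρ i y g := by
      rw [sub_eq_zero, inv_smul_eq_iff₀ h0] at h1
      exact h1
    have h3 : y ∈ U ⊓ U' := ⟨(hUm y).2 ⟨hle hy, h2⟩, hy⟩
    rw [hinf, Submodule.mem_bot] at h3
    exact Subtype.ext h3
  have hsurj : Function.Surjective (τ.restrict hτm) := LinearMap.injective_iff_surjective.1 hinj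
  rw [← hsup] at hz
  obtain ⟨u, hu, u', hu', rfl⟩ := Submodule.mem_sup.1 hz
  obtain ⟨⟨z', hz'⟩, h⟩ := hsurj ⟨u', hu'⟩
  have h1 : ((χ g : E) ^ i)⁻¹ • ρ n g z' - z' = u' := congrArg Subtype.val h
  exact ⟨u, z', ((hUm u).1 hu).1, ((hUm u).1 hu).2, by rw [h1]⟩

/-- Homological and numerical equivalence, abstract form. -/
theorem hn_abs (O : Ops E H) (χ : Γ →* Eˣ) (ρ : ∀ n, Representation E Γ (H n)) (φ : Γ)
    (C : ∀ n : ℕ, ℕ → Set (H n)) (hG : IsGalois O χ ρ) (hR : IsReduction O χ ρ φ C) (n : ℕ)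
    [FiniteDimensional E (H n)] (mulB : H n →ₗ[E] H n →ₗ[E] H n)
    (hm : ∀ x y, O.mul n x y = mulB x y) (trB : H n →ₗ[E] E) (ht : ∀ x, O.tr n x = trB x)
    (hnd : ∀ x, (∀ y, O.tr n (O.mul n y x) = 0) → x = 0)
    (hgr : ∀ p : H n → Prop, (∀ i, ∀ a ∈ O.gr n i, p a) → (∀ a b, p a → p b → p (a + b)) →
      ∀ a, p a)
    (hdeg : ∀ i j, i + j ≠ 2 * O.dim n → ∀ a ∈ O.gr n i, ∀ b ∈ O.gr n j,
      O.tr n (O.mul n a b) = 0)
    (hT : ∀ m : ℕ, 0 < m → TateConjecture (redOps O C) χ ρ n (Subgroup.zpowers (φ ^ m)))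
    (i j : ℕ) (hij : i + j = O.dim n) (x : H n) (hx : x ∈ Submodule.span E (C n j))
    (h : ∀ y ∈ C n i, O.tr n (O.mul n y x) = 0) : x = 0 := by
  obtain ⟨m, hm0, hfx⟩ := exists_fix hR hx
  set g := φ ^ m with hg
  have hxd : x ∈ O.gr n (2 * j) := by
    have h1 : Submodule.span E (C n j) ≤ O.gr n (2 * j) := Submodule.span_le.2 (hR.deg n j)
    exact h1 hx
  have hfx' : ρ n g x = (χ g : E) ^ j • x := hfx
  have hl : ∀ z, O.tr n (O.mul n z x) = (trB ∘ₗ mulB.flip x) z := by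
    intro z
    rw [ht, hm]
    rfl
  set ℓ : H n →ₗ[E] E := trB ∘ₗ mulB.flip x with hℓ
  have hne : ∀ a : ℕ, (χ g : E) ^ a ≠ 0 := fun a => pow_ne_zero _ (χ g).ne_zero
  have hρ : ∀ z, ℓ (ρ n g z) = (χ g : E) ^ i * ℓ z := by
    intro z
    have h1 : O.tr n (ρ n g (O.mul n z x)) = (χ g : E) ^ O.dim n * O.tr n (O.mul n z x) :=
      hG.tr n g _
    have h2 : ρ n g (O.mul n z x) = O.mul n (ρ n g z) (ρ n g x) := hG.mul n g z x
    rw [h2, hfx'] at h1
    have h3 : O.tr n (O.mul n (ρ n g z) ((χ g : E) ^ j • x)) =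
        (χ g : E) ^ j * ℓ (ρ n g z) := by
      rw [ht, hm, map_smul, map_smul, smul_eq_mul]
      rfl
    rw [h3, hl, ← hij, pow_add] at h1
    apply mul_left_cancel₀ (hne j)
    rw [h1]
    ring
  apply hnd
  intro z
  refine hgr (fun z => O.tr n (O.mul n z x) = 0) ?_ ?_ z
  · intro l z hz
    by_cases hl2 : l + 2 * j = 2 * O.dim n
    · have hl3 : l = 2 * i := by omega
      subst hl3
      have hTi := hT m hm0 i
      obtain ⟨u, z', hu, huf, hzz⟩ := split χ ρ n i (O.gr n (2 * i)) g hTi.1 z hz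
      have h1 := hTi.2 u hu (fixes_zpowers huf)
      have h2 : ℓ u = 0 := by
        refine Submodule.span_induction (p := fun u _ => ℓ u = 0) ?_ ?_ ?_ ?_ h1
        · intro y hy
          have hy1 : y ∈ C n i := hy.1
          rw [← hl]
          exact h y hy1
        · rw [map_zero]
        · intro a b _ _ ha hb
          rw [map_add, ha, hb, add_zero]
        · intro c a _ ha
          rw [map_smul, ha, smul_zero]
      show O.tr n (O.mul n z x) = 0
      rw [hl, hzz, map_add, h2, zero_add, map_sub, map_smul, hρ, smul_eq_mul,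
        inv_mul_cancel_left₀ (hne i), sub_self]
    · exact hdeg l (2 * j) hl2 z hz x hxd
  · intro a b ha hb
    show O.tr n (O.mul n (a + b) x) = 0
    have ha' : ℓ a = 0 := by rw [← hl]; exact ha
    have hb' : ℓ b = 0 := by rw [← hl]; exact hb
    rw [hl, map_add, ha', hb', add_zero]

end Pool.Agent.N647.RD
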