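import Pool.Agent.N204.RD.Stm2
import Pool.Agent.N647.RD.HNAbs

/-!
# Task HN: homological and numerical equivalence on the powers of the reduction
-/

set_option autoImplicit false
set_option linter.unusedSectionVars false

open CategoryTheory AlgebraicGeometry

universe u

namespace Pool.Agent.N647.RD

open Module Matrix
open Pool.Agent.H914 Pool.Agent.H914.VarClass Pool.Agent.H914.VarClass.Obj
  Pool.Agent.H914.WeilCohomology
open Pool.Agent.Y121.AHS Pool.Agent.N996.BP
open Pool.Agent.Y133.Half (pw)
open Pool.Agent.N211.TP (Ops act Fixes PowH cohOps IsGalois TateConjecture)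
open Pool.Agent.N211.BT (mulB trB nondegE)
open Pool.Agent.N204.RD

theorem hn : S_HN.{u} := by
  intro k _ 𝒱 ops T E _ _ X Γ _ ψ χ ρ hG φ C hR n hT i j hij x hx h
  haveI : FiniteDimensional E (PowH T E X n) :=
    WeilCohomology.finite (baseW T.W E) (pw X n)
  refine hn_abs (cohOps T E ψ) χ ρ φ C hG hR n (mulB T.W E (pw X n)) (fun x y => rfl)
    (trB T.W E (pw X n)) (fun x => rfl) ?_ ?_ ?_ hT i j hij x hx h
  · intro x h
    exact nondegE h
  · intro p h1 h2 a
    exact gr_induction ((baseW T.W E).isInternal (pw X n)) h1 h2 a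
  · intro i j hij a ha b hb
    exact (baseW T.W E).tr_eq_zero ((baseW T.W E).mul_mem ha hb) hij

end Pool.Agent.N647.RD
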